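import Mathlib

/-!
# Project K3, module JT: Jordan triples of rectangular matrices and of vectors

The statement is the body of `Pool.Agent.H47.K3.S_JT`.
-/

set_option autoImplicit false

namespace Pool.Agent.H15.K3

variable {m : ℕ} {q : (Fin m → ℂ) → (Fin m → ℂ) → ℂ}

theorem q_zero (hr : ∀ (r : ℂ) x y, q (r • x) y = r * q x y) (y : Fin m → ℂ) : q 0 y = 0 := by
  have h := hr 0 0 y
  rwa [zero_smul, zero_mul] at h

/-- all the vectors `a i α` are isotropic -/
theorem iso (hs : ∀ x y, q x y = q y x) (hr : ∀ (r : ℂ) x y, q (r • x) y = r * q x y)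
    {a : Fin 2 → Fin 3 → Fin m → ℂ} {b : Fin 3 → Fin 2 → Fin m → ℂ}
    (ha : ∀ i α γ k j β, q (b γ k) (a j β) • a i α + q (a i α) (b γ k) • a j β -
      q (a i α) (a j β) • b γ k =
        -((if α = γ ∧ k = j then a i β else 0) + (if β = γ ∧ k = i then a j α else 0)))
    (hb : ∀ γ k i α δ l, q (a i α) (b δ l) • b γ k + q (b γ k) (a i α) • b δ l -
      q (b γ k) (b δ l) • a i α =
        -((if k = i ∧ α = δ then b γ l else 0) + (if l = i ∧ α = γ then b δ k else 0)))
    (i : Fin 2) (α : Fin 3) : q (a i α) (a i α) = 0 := by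
  by_contra hne
  have h0 : ∀ γ k, ¬ (α = γ ∧ k = i) → b γ k = 0 := by
    intro γ k hc
    have h := ha i α γ k i α
    rw [if_neg hc, add_zero, neg_zero, hs (b γ k) (a i α)] at h
    set A := a i α with hA
    set B := b γ k with hB
    have h1 : q A A • B = (2 * q A B) • A := by
      rw [two_mul, add_smul]
      exact (sub_eq_zero.mp h).symm
    have h2 : B = (2 * q A B / q A A) • A := by
      rw [div_eq_inv_mul, mul_smul, ← h1, smul_smul, inv_mul_cancel₀ hne, one_smul]
    have h3 : q B A = 2 * q A B := by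
      have h4 : q ((2 * q A B / q A A) • A) A = 2 * q A B := by
        rw [hr, div_mul_cancel₀ _ hne]
      rwa [← h2] at h4
    have h5 : q A B = 0 := by
      rw [hs B A] at h3
      linear_combination -h3
    rw [h5, mul_zero, zero_div, zero_smul] at h2
    exact h2
  obtain ⟨k, hk⟩ : ∃ k : Fin 2, k ≠ i := exists_ne i
  obtain ⟨γ, hγ⟩ : ∃ γ : Fin 3, γ ≠ α := exists_ne α
  have h1 : b α i = 0 := by
    have h := hb α k k γ γ i
    rw [if_pos ⟨rfl, rfl⟩, if_neg (fun hc => hk hc.1.symm), h0 α k (fun hc => hk hc.2),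
      h0 γ i (fun hc => hγ hc.1.symm)] at h
    simp only [q_zero hr, smul_zero, zero_smul, add_zero, sub_zero] at h
    rw [eq_comm, neg_eq_zero] at h
    exact h
  have h2 := ha i α α i i α
  rw [if_pos ⟨rfl, rfl⟩, h1, hs (a i α) 0, q_zero hr, smul_zero, zero_smul, add_zero,
    sub_zero, eq_comm, neg_eq_zero] at h2
  have h3 : a i α = 0 := by
    have h4 : (2 : ℂ) • a i α = 0 := by
      rw [two_smul]
      exact h2
    exact (smul_eq_zero.mp h4).resolve_left two_ne_zero
  apply hne
  rw [h3, q_zero hr]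

/-- **module JT** (the body of `S_JT`) -/
theorem jt :
    ∀ (m : ℕ) (q : (Fin m → ℂ) → (Fin m → ℂ) → ℂ), (∀ x y, q x y = q y x) →
    (∀ (r : ℂ) x y, q (r • x) y = r * q x y) →
    ∀ (a : Fin 2 → Fin 3 → Fin m → ℂ) (b : Fin 3 → Fin 2 → Fin m → ℂ),
    (∀ i α γ k j β, q (b γ k) (a j β) • a i α + q (a i α) (b γ k) • a j β -
      q (a i α) (a j β) • b γ k =
        -((if α = γ ∧ k = j then a i β else 0) + (if β = γ ∧ k = i then a j α else 0))) →
    (∀ γ k i α δ l, q (a i α) (b δ l) • b γ k + q (b γ k) (a i α) • b δ l -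
      q (b γ k) (b δ l) • a i α =
        -((if k = i ∧ α = δ then b γ l else 0) + (if l = i ∧ α = γ then b δ k else 0))) →
    ∀ i α, a i α = 0 := by
  intro m q hs hr a b ha hb
  have hz := fun y => q_zero hr y
  have hi := iso hs hr ha hb
  by_cases hex : ∃ i α, a i α = 0
  · obtain ⟨i, α, h0⟩ := hex
    -- the row
    have hrow : ∀ i α, a i α = 0 → ∀ β, a i β = 0 := by
      intro i α h0 β
      obtain ⟨j, hj⟩ : ∃ j : Fin 2, j ≠ i := exists_ne i
      have h := ha i α α j j β
      rw [if_pos ⟨rfl, rfl⟩, if_neg (fun hc => hj hc.2), h0, hz, hz, smul_zero, zero_smul,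
        zero_smul, add_zero, add_zero, sub_zero, eq_comm, neg_eq_zero] at h
      exact h
    -- the column
    have hcol : ∀ i α, a i α = 0 → ∀ j, a j α = 0 := by
      intro i α h0 j
      obtain ⟨β, hβ⟩ : ∃ β : Fin 3, β ≠ α := exists_ne α
      have h := ha i α β i j β
      rw [if_neg (fun hc => hβ hc.1.symm), if_pos ⟨rfl, rfl⟩, h0, hz, hz, smul_zero, zero_smul,
        zero_smul, add_zero, zero_add, sub_zero, eq_comm, neg_eq_zero] at h
      exact h
    intro j β
    exact hrow j α (hcol i α h0 j) β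
  · exfalso
    push Not at hex
    have h1 : ∀ i α, q (a i α) (b α i) = -1 := by
      intro i α
      have h := ha i α α i i α
      rw [if_pos ⟨rfl, rfl⟩, hi i α, zero_smul, sub_zero, hs (b α i) (a i α), ← add_smul] at h
      have h2 : (q (a i α) (b α i) + q (a i α) (b α i) + 2) • a i α = 0 := by
        rw [add_smul, h, two_smul]
        exact neg_add_cancel _
      have h3 := (smul_eq_zero.mp h2).resolve_right (hex i α)
      linear_combination h3 / 2
    have h2 : ∀ i α γ k, ¬ (α = γ ∧ k = i) → q (a i α) (b γ k) = 0 := by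
      intro i α γ k hc
      have h := ha i α γ k i α
      rw [if_neg hc, hi i α, zero_smul, sub_zero, hs (b γ k) (a i α), ← add_smul, add_zero,
        neg_zero] at h
      have h3 := (smul_eq_zero.mp h).resolve_right (hex i α)
      linear_combination h3 / 2
    have h3 : ∀ α β : Fin 3, β ≠ α → a 1 β = (-q (a 0 α) (a 1 β)) • b α 0 := by
      intro α β hβ
      have h := ha 0 α α 0 1 β
      rw [if_neg (fun hc => absurd hc.2 (by decide)), if_neg (fun hc => hβ hc.1),
        hs (b α 0) (a 1 β), h2 1 β α 0 (fun hc => hβ hc.1), h1 0 α, zero_smul, zero_add,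
        neg_one_smul, add_zero, neg_zero] at h
      rw [neg_smul]
      have h4 := sub_eq_zero.mp h
      rw [← h4, neg_neg]
    have e1 := h3 0 1 (by decide)
    have e2 := h3 0 2 (by decide)
    have f1 : q (a 1 1) (b 1 1) = -1 := h1 1 1
    have f2 : q (a 1 2) (b 1 1) = 0 := h2 1 2 1 1 (by decide)
    rw [e1, hr] at f1
    rw [e2, hr] at f2
    rcases mul_eq_zero.mp f2 with h | h
    · apply hex 1 2
      rw [e2, h, zero_smul]
    · rw [h, mul_zero] at f1
      norm_num at f1

end Pool.Agent.H15.K3
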